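import Pool.Agent.Helper42.Mk2.Main3

set_option autoImplicit false

namespace Pool.Agent.Results.MP_b7f0d9_co.PlaneRule

open Pool.Agent.Helper42.Miek

/-- For every `k` there is a matching rule in the plane with legal tilings, none of which has a
nonzero period, such that every tile type satisfies the perimeter bounds (A) (for legal tilings)
and (B) (for all legal finite patches); moreover every nonempty finite pattern satisfies (A), and
(B) for all legal finite patches without holes, and every nonempty finite pattern of diameter at
most `k` satisfies (B) for all legal finite patches. -/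
theorem result (k : ℕ) : ∃ (F : ProtoSet 2) (M : F.MatchingRule),
    (∃ T : Set F.Tile, F.IsTiling T ∧ M.Legal T) ∧
    (∀ T : Set F.Tile, F.IsTiling T → M.Legal T → ∀ v : Sp 2, v ≠ 0 → F.translate v T ≠ T) ∧
    (∃ dens c : F.ι → ℝ, M.CondA dens c ∧ M.CondB dens c) ∧
    (∀ q : Set F.Tile, q.Finite → q.Nonempty →
      ∃ dens c : ℝ, M.PatternA q dens c ∧ M.PatternBNoHoles q dens c ∧
        ((∀ x ∈ F.region q, ∀ y ∈ F.region q, dist x y ≤ k) → M.PatternB q dens c)) :=
  Pool.Agent.Helper42.Mk2.main3 k

end Pool.Agent.Results.MP_b7f0d9_co.PlaneRule
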